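import Mathlib

/-!
# Linear circuits

Definitions only.
-/

open Finset

namespace Pool.Agent.H468R2.Lin

/-- A linear circuit over the field `F` with `n` inputs and `n` outputs: `size` addition gates,
numbered so that edges go from smaller to larger numbers; `cin g i` is the scalar on the edge from
the input `i` to the gate `g` and `cg g h` the scalar on the edge from the gate `h` to the gate
`g` (the scalar `0` means that there is no edge). Outputs may be inputs or gates. -/
structure LinCircuit (F : Type) [Field F] (n : ℕ) : Type where
  size : ℕ
  cin : Fin size → Fin n → F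
  cg : Fin size → Fin size → F
  acyclic : ∀ g h, cg g h ≠ 0 → h < g
  out : Fin n → Fin n ⊕ Fin size

variable {F : Type} [Field F] {n : ℕ}

/-- `form g` is the linear form (the vector of its coefficients) computed at the gate `g`. -/
def LinCircuit.IsForms (C : LinCircuit F n) (form : Fin C.size → Fin n → F) : Prop :=
  ∀ g i, form g i = C.cin g i + ∑ h, C.cg g h * form h i

/-- The circuit computes `x ↦ A x`: output number `j` computes the `j`-th row of `A`. -/
def LinCircuit.Computes (C : LinCircuit F n) (A : Matrix (Fin n) (Fin n) F) : Prop :=
  ∃ form : Fin C.size → Fin n → F, C.IsForms form ∧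
    ∀ j i, Sum.elim (fun l : Fin n => (Pi.single l 1 : Fin n → F)) form (C.out j) i = A j i

open Classical in
/-- The number of edges leaving the inputs. -/
noncomputable def LinCircuit.inputEdges (C : LinCircuit F n) : ℕ :=
  ∑ g, (univ.filter fun i => C.cin g i ≠ 0).card

open Classical in
/-- The number of edges between gates. -/
noncomputable def LinCircuit.gateEdges (C : LinCircuit F n) : ℕ :=
  ∑ g, (univ.filter fun h => C.cg g h ≠ 0).card

/-- The number of nodes plus the number of edges. -/
noncomputable def LinCircuit.totalSize (C : LinCircuit F n) : ℕ :=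
  n + C.size + C.inputEdges + C.gateEdges

/-- The undirected graph on the gates (the inputs are deleted). -/
def LinCircuit.adj (C : LinCircuit F n) (g h : Fin C.size) : Prop :=
  C.cg g h ≠ 0 ∨ C.cg h g ≠ 0

/-- The graph with adjacency relation `adj` has a tree decomposition of width at most `t`. The
tree is rooted at node `0` and given by the parent function `par`, where `par i < i`; the nodes
whose bags contain a given vertex form a nonempty subtree, i.e. exactly one of them is the root
or has a parent whose bag does not contain the vertex. -/
def HasTreeDec {V : Type} (adj : V → V → Prop) (t : ℕ) : Prop :=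
  ∃ (T : ℕ) (par : Fin (T + 1) → Fin (T + 1)) (bag : Fin (T + 1) → Finset V),
    (∀ i, 0 < i → par i < i) ∧ (∀ i, (bag i).card ≤ t + 1) ∧
    (∀ v, ∃! i, v ∈ bag i ∧ (i = 0 ∨ v ∉ bag (par i))) ∧
    (∀ u v, adj u v → ∃ i, u ∈ bag i ∧ v ∈ bag i)

/-- The Hilbert matrix, with entries `1 / (i + j + 1)`. -/
def hilbert (F : Type) [Field F] (n : ℕ) : Matrix (Fin n) (Fin n) F :=
  fun i j => 1 / ((i : F) + (j : F) + 1)

end Pool.Agent.H468R2.Lin
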