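import Mathlib
import Pool.Agent.H468R2.Lin.Defs
import Pool.Agent.H468R2.Frag.Recur
import Pool.Agent.H468R2.Frag.TreeSepW

/-! # Linear circuits of small treewidth -/

open Finset

namespace Pool.Agent.H468R2.Lin

open Pool.Agent.H468R2.Frag (inSet mem_inSet recursive_bound treeDec_separator_weighted)

variable {F : Type} [Field F] {n : ℕ}

/-- A vector supported on `I` which is annihilated by `|I|` rows of the Hilbert matrix is `0`. -/
lemma hilbert_regular [CharZero F] (I O : Finset (Fin n)) (hIO : I.card ≤ O.card)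
    (x : Fin n → F) (hx : ∀ i, i ∉ I → x i = 0)
    (h0 : ∀ j ∈ O, ∑ i, hilbert F n j i * x i = 0) : ∀ i, x i = 0 := by
  classical
  by_contra hne
  push Not at hne
  obtain ⟨i0, hi0⟩ := hne
  have hi0I : i0 ∈ I := by
    by_contra h
    exact hi0 (hx i0 h)
  have hpos : ∀ a b : ℕ, ((a : F) + (b : F) + 1) ≠ 0 := by
    intro a b
    exact_mod_cast Nat.succ_ne_zero (a + b)
  let P : Polynomial F := ∑ i ∈ I, Polynomial.C (x i) *
    ∏ l ∈ I.erase i, (Polynomial.X + Polynomial.C ((l : ℕ) + 1 : F))
  have hdeg : P.degree < (I.card : WithBot ℕ) := by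
    apply lt_of_le_of_lt (Polynomial.degree_sum_le _ _)
    rw [Finset.sup_lt_iff (WithBot.bot_lt_coe _)]
    intro i hi
    refine lt_of_le_of_lt ((Polynomial.degree_mul_le _ _).trans
      (add_le_add Polynomial.degree_C_le le_rfl)) ?_
    rw [zero_add, Polynomial.degree_prod]
    have : ∀ l ∈ I.erase i, (Polynomial.X + Polynomial.C ((l : ℕ) + 1 : F)).degree = 1 :=
      fun l _ => Polynomial.degree_X_add_C _
    rw [Finset.sum_congr rfl this]
    simp only [sum_const, nsmul_eq_mul, mul_one]
    have hc : (I.erase i).card < I.card := Finset.card_erase_lt_of_mem hi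
    exact_mod_cast hc
  have hroots : ∀ j ∈ O, P.eval ((j : ℕ) : F) = 0 := by
    intro j hj
    have e1 : P.eval ((j : ℕ) : F) =
        (∏ l ∈ I, (((j : ℕ) : F) + ((l : ℕ) : F) + 1)) * ∑ i, hilbert F n j i * x i := by
      rw [Finset.mul_sum]
      have : ∑ i, (∏ l ∈ I, (((j : ℕ) : F) + ((l : ℕ) : F) + 1)) * (hilbert F n j i * x i) =
          ∑ i ∈ I, (∏ l ∈ I, (((j : ℕ) : F) + ((l : ℕ) : F) + 1)) * (hilbert F n j i * x i) := by
        symm
        apply Finset.sum_subset (subset_univ _)
        intro i _ hi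
        rw [hx i hi]
        ring
      rw [this]
      simp only [P, Polynomial.eval_finsetSum, Polynomial.eval_mul, Polynomial.eval_C,
        Polynomial.eval_prod, Polynomial.eval_add, Polynomial.eval_X]
      apply Finset.sum_congr rfl
      intro i hi
      rw [← Finset.mul_prod_erase I _ hi]
      have hp := hpos (j : ℕ) (i : ℕ)
      have e2 : ∏ l ∈ I.erase i, (((j : ℕ) : F) + (((l : ℕ) : F) + 1)) =
          ∏ l ∈ I.erase i, (((j : ℕ) : F) + ((l : ℕ) : F) + 1) := by
        apply Finset.prod_congr rfl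
        intro l _
        ring
      rw [e2]
      simp only [hilbert]
      field_simp
    rw [e1, h0 j hj, mul_zero]
  have hP0 : P = 0 := by
    by_contra hP
    have h1 : (O.image fun j : Fin n => ((j : ℕ) : F)).card ≤ P.roots.toFinset.card := by
      apply card_le_card
      intro y hy
      rw [mem_image] at hy
      obtain ⟨j, hj, rfl⟩ := hy
      rw [Multiset.mem_toFinset, Polynomial.mem_roots hP]
      exact hroots j hj
    rw [Finset.card_image_of_injective _ (fun a b h => Fin.ext (Nat.cast_injective h))] at h1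
    have h2 : P.roots.toFinset.card ≤ P.natDegree :=
      (Multiset.toFinset_card_le _).trans (Polynomial.card_roots' P)
    have h3 : P.natDegree < I.card := by
      rw [Polynomial.natDegree_lt_iff_degree_lt hP]
      exact hdeg
    omega
  have e3 : P.eval (-(((i0 : ℕ) : F) + 1)) =
      x i0 * ∏ l ∈ I.erase i0, (-(((i0 : ℕ) : F) + 1) + (((l : ℕ) : F) + 1)) := by
    simp only [P, Polynomial.eval_finsetSum, Polynomial.eval_mul, Polynomial.eval_C,
        Polynomial.eval_prod, Polynomial.eval_add, Polynomial.eval_X]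
    rw [Finset.sum_eq_single i0]
    · intro i hi hii
      have : ∏ l ∈ I.erase i, (-(((i0 : ℕ) : F) + 1) + (((l : ℕ) : F) + 1)) = 0 := by
        apply Finset.prod_eq_zero (i := i0)
        · exact Finset.mem_erase.2 ⟨hii.symm, hi0I⟩
        · ring
      rw [this, mul_zero]
    · intro h
      exact absurd hi0I h
  rw [hP0, Polynomial.eval_zero] at e3
  have h4 : ∏ l ∈ I.erase i0, (-(((i0 : ℕ) : F) + 1) + (((l : ℕ) : F) + 1)) ≠ 0 := by
    rw [Finset.prod_ne_zero_iff]
    intro l hl h
    have h5 : ((l : ℕ) : F) = ((i0 : ℕ) : F) := by linear_combination h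
    exact (Finset.mem_erase.1 hl).1 (Fin.ext (Nat.cast_injective h5))
  exact mul_ne_zero hi0 h4 e3.symm

/-- The key property: a set `A` of gates reading few inputs and computing many outputs has many
gates feeding it. -/
lemma key [CharZero F] (C : LinCircuit F n) (form : Fin C.size → Fin n → F)
    (hform : C.IsForms form) (R : Finset (Fin n)) (O : Finset (Fin n)) (A : Finset (Fin C.size))
    (hR : ∀ g ∈ A, ∀ i, C.cin g i ≠ 0 → i ∈ R)
    (hO : ∀ j ∈ O, ∃ g ∈ A, ∀ i, form g i = hilbert F n j i) :
    min O.card (n - R.card) ≤ (inSet (fun h g => C.cg g h ≠ 0) A).card := by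
  classical
  by_contra hcon
  push Not at hcon
  set Z := inSet (fun h g => C.cg g h ≠ 0) A with hZ
  set m := min O.card (n - R.card) with hm
  have hI : m ≤ (Rᶜ).card := by
    rw [card_compl, Fintype.card_fin]
    exact min_le_right _ _
  obtain ⟨I, hIR, hIc⟩ := exists_subset_card_eq hI
  -- a nonzero vector supported on `I` on which all the forms of `Z` vanish
  let f : (I → F) →ₗ[F] (Z → F) :=
    { toFun := fun y u => ∑ i : I, form u i * y i
      map_add' := by
        intro y y'
        funext u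
        simp [mul_add, Finset.sum_add_distrib]
      map_smul' := by
        intro c y
        funext u
        simp only [Pi.smul_apply, smul_eq_mul, RingHom.id_apply, Finset.mul_sum]
        apply Finset.sum_congr rfl
        intro i _
        ring }
  have hker : LinearMap.ker f ≠ ⊥ := by
    apply LinearMap.ker_ne_bot_of_finrank_lt
    rw [Module.finrank_fintype_fun_eq_card, Module.finrank_fintype_fun_eq_card,
      Fintype.card_coe, Fintype.card_coe, hIc]
    exact hcon
  rw [Submodule.ne_bot_iff] at hker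
  obtain ⟨y, hy, hy0⟩ := hker
  rw [LinearMap.mem_ker] at hy
  let x : Fin n → F := fun i => if h : i ∈ I then y ⟨i, h⟩ else 0
  have hxI : ∀ i, i ∉ I → x i = 0 := fun i hi => dif_neg hi
  have hsum : ∀ v : Fin n → F, ∑ i, v i * x i = ∑ i : I, v i * y i := by
    intro v
    rw [← Finset.sum_subset (subset_univ I) (by
      intro i _ hi
      rw [hxI i hi, mul_zero]), ← Finset.sum_coe_sort I]
    apply Finset.sum_congr rfl
    intro i _
    simp [x]
  have hZ0 : ∀ u ∈ Z, ∑ i, form u i * x i = 0 := by
    intro u hu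
    rw [hsum]
    exact congrFun hy ⟨u, hu⟩
  have hA0 : ∀ g, g ∈ A → ∑ i, form g i * x i = 0 := by
    intro g
    induction g using WellFoundedLT.induction with
    | _ g ih =>
      intro hg
      have e1 : ∑ i, form g i * x i = ∑ i, C.cin g i * x i +
          ∑ h, C.cg g h * ∑ i, form h i * x i := by
        simp only [Finset.mul_sum]
        rw [Finset.sum_comm, ← Finset.sum_add_distrib]
        apply Finset.sum_congr rfl
        intro i _
        rw [hform g i, add_mul, Finset.sum_mul]
        congr 1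
        apply Finset.sum_congr rfl
        intro h _
        ring
      rw [e1]
      have e2 : ∑ i, C.cin g i * x i = 0 := by
        apply Finset.sum_eq_zero
        intro i _
        by_cases hc : C.cin g i = 0
        · rw [hc, zero_mul]
        · have h1 := hR g hg i hc
          rw [hxI i (fun h2 => (mem_compl.1 (hIR h2)) h1), mul_zero]
      have e3 : ∑ h, C.cg g h * ∑ i, form h i * x i = 0 := by
        apply Finset.sum_eq_zero
        intro h _
        by_cases hc : C.cg g h = 0
        · rw [hc, zero_mul]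
        · by_cases hhA : h ∈ A
          · rw [ih h (C.acyclic g h hc) hhA, mul_zero]
          · rw [hZ0 h, mul_zero]
            rw [hZ, mem_inSet]
            exact ⟨hhA, g, hg, hc⟩
      rw [e2, e3, add_zero]
  have hx0 := hilbert_regular I O (by rw [hIc]; exact min_le_left _ _) x hxI (by
    intro j hj
    obtain ⟨g, hg, hgj⟩ := hO j hj
    have := hA0 g hg
    simp only [hgj] at this
    exact this)
  apply hy0
  funext i
  have := hx0 i
  simpa [x] using this

lemma hilbert_ne_zero [CharZero F] (j i : Fin n) : hilbert F n j i ≠ 0 := by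
  simp only [hilbert, one_div]
  apply inv_ne_zero
  exact_mod_cast Nat.succ_ne_zero ((j : ℕ) + (i : ℕ))

lemma hilbert_row_inj [CharZero F] (j j' i : Fin n) (h : hilbert F n j i = hilbert F n j' i) :
    j = j' := by
  simp only [hilbert, one_div] at h
  have h1 := inv_injective h
  have h2 : ((j : ℕ) : F) = ((j' : ℕ) : F) := by linear_combination h1
  exact Fin.ext (Nat.cast_injective h2)

open Classical in
theorem lin_bound_nat [CharZero F] (C : LinCircuit F n) (hC : C.Computes (hilbert F n))
    (hn : 2 ≤ n) (t D : ℕ) (hT : HasTreeDec C.adj t)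
    (hD : C.inputEdges * 2 ^ D ≤ (n / 2) * 3 ^ D) :
    n ≤ C.inputEdges ∧ n * n ≤ 18 * (t + 1) * (D + 1) * C.inputEdges := by
  obtain ⟨form, hform, hout⟩ := hC
  -- the outputs are gates
  have hgate : ∀ j, ∃ g, C.out j = .inr g := by
    intro j
    rcases hj : C.out j with l | g
    · exfalso
      obtain ⟨i, hi⟩ : ∃ i : Fin n, i ≠ l := by
        by_cases h0 : l = ⟨0, by omega⟩
        · exact ⟨⟨1, by omega⟩, by rw [h0]; simp⟩
        · exact ⟨⟨0, by omega⟩, fun h => h0 h.symm⟩
      have := hout j i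
      rw [hj] at this
      simp only [Sum.elim_inl] at this
      rw [Pi.single_eq_of_ne hi] at this
      exact hilbert_ne_zero j i this.symm
    · exact ⟨g, rfl⟩
  have hrow : ∀ j g, C.out j = .inr g → ∀ i, form g i = hilbert F n j i := by
    intro j g hj i
    have := hout j i
    rw [hj] at this
    exact this
  let μ : Fin C.size → ℕ := fun g => (univ.filter fun i => C.cin g i ≠ 0).card
  let o : Fin C.size → ℕ := fun g => (univ.filter fun j => C.out j = .inr g).card
  have hoA : ∀ A : Finset (Fin C.size), ∑ g ∈ A, o g =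
      (univ.filter fun j => ∃ g ∈ A, C.out j = .inr g).card := by
    intro A
    simp only [o]
    rw [← card_biUnion]
    · congr 1
      ext j
      simp
    · intro g _ g' _ hne
      rw [Function.onFun, Finset.disjoint_left]
      intro j hj hj'
      simp only [mem_filter, mem_univ, true_and] at hj hj'
      rw [hj] at hj'
      exact hne (Sum.inr_injective hj')
  have hotot : ∑ g, o g = n := by
    rw [hoA, Finset.filter_true_of_mem]
    · simp
    · intro j _
      obtain ⟨g, hg⟩ := hgate j
      exact ⟨g, mem_univ _, hg⟩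
  have ho1 : ∀ g, o g ≤ 1 := by
    intro g
    simp only [o]
    rw [card_le_one]
    intro j hj j' hj'
    simp only [mem_filter, mem_univ, true_and] at hj hj'
    apply hilbert_row_inj j j' ⟨0, by omega⟩ (F := F)
    rw [← hrow j g hj, ← hrow j' g hj']
  have hleaf : ∀ A : Finset (Fin C.size), ∑ g ∈ A, μ g ≤ n / 2 →
      ∑ g ∈ A, o g ≤ 2 * (inSet (fun h g => C.cg g h ≠ 0) A).card := by
    intro A hA
    let R : Finset (Fin n) := A.biUnion fun g => univ.filter fun i => C.cin g i ≠ 0
    have hRc : R.card ≤ n / 2 := card_biUnion_le.trans hA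
    have hk := key C form hform R (univ.filter fun j => ∃ g ∈ A, C.out j = .inr g) A (by
      intro g hg i hi
      simp only [R, mem_biUnion, mem_filter, mem_univ, true_and]
      exact ⟨g, hg, hi⟩) (by
      intro j hj
      simp only [mem_filter, mem_univ, true_and] at hj
      obtain ⟨g, hg, hgj⟩ := hj
      exact ⟨g, hg, hrow j g hgj⟩)
    rw [← hoA] at hk
    have hle : ∑ g ∈ A, o g ≤ n :=
      (Finset.sum_le_sum_of_subset (subset_univ _)).trans hotot.le
    rcases min_le_iff.1 hk with h | h <;> omega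
  have hread : n ≤ C.inputEdges := by
    have h1 : (univ : Finset (Fin n)) ⊆
        (univ : Finset (Fin C.size)).biUnion fun g => univ.filter fun i => C.cin g i ≠ 0 := by
      intro i _
      by_contra hcon
      simp only [mem_biUnion, mem_filter, mem_univ, true_and, not_exists, not_not] at hcon
      have hz : ∀ g, form g i = 0 := by
        intro g
        induction g using WellFoundedLT.induction with
        | _ g ih =>
          rw [hform g i, hcon g, zero_add]
          apply Finset.sum_eq_zero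
          intro h _
          by_cases hc : C.cg g h = 0
          · rw [hc, zero_mul]
          · rw [ih h (C.acyclic g h hc), mul_zero]
      obtain ⟨g, hg⟩ := hgate i
      apply hilbert_ne_zero (F := F) i i
      rw [← hrow i g hg]
      exact hz g
    have h2 := card_le_card h1
    rw [card_univ, Fintype.card_fin] at h2
    exact h2.trans card_biUnion_le
  refine ⟨hread, ?_⟩
  have hT' : Pool.Agent.H468R2.Frag.HasTreeDec C.adj t := hT
  have hsep : ∀ A : Finset (Fin C.size), ∃ (S : Finset (Fin C.size)) (side : Fin C.size → Bool),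
      S ⊆ A ∧ S.card ≤ t + 1 ∧
      (∀ u v, u ∈ A → v ∈ A → u ∉ S → v ∉ S → C.cg v u ≠ 0 → side u = side v) ∧
      (∀ c, 3 * ∑ v ∈ A.filter (fun v => v ∉ S ∧ side v = c), μ v ≤ 2 * ∑ v ∈ A, μ v) := by
    intro A
    obtain ⟨S, side, h1, h2, h3, h4⟩ := treeDec_separator_weighted C.adj t hT' μ A
    exact ⟨S, side, h1, h2, fun u v hu hv hu' hv' huv => h3 u v hu hv hu' hv' (Or.inr huv), h4⟩
  obtain ⟨I, hI, hO⟩ := recursive_bound (fun h g => C.cg g h ≠ 0) μ o (t + 1) (n / 2) 2 1
    (by omega) ho1 hsep hleaf D univ hD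
  have hin : (inSet (fun h g => C.cg g h ≠ 0) (univ : Finset (Fin C.size))).card = 0 := by
    rw [card_eq_zero, Finset.eq_empty_iff_forall_notMem]
    intro u hu
    rw [mem_inSet] at hu
    exact hu.1 (mem_univ _)
  rw [hotot, hin] at hO
  have hL : ∑ g, μ g = C.inputEdges := rfl
  rw [hL] at hI
  set L := C.inputEdges with hLdef
  have h1 : n / 2 * (I + 1) ≤ 3 * L := by
    rw [mul_add, mul_one]
    omega
  have h2 : n ≤ 3 * (n / 2) := by omega
  have h3 : n * (I + 1) ≤ 9 * L := by
    calc n * (I + 1) ≤ 3 * (n / 2) * (I + 1) := Nat.mul_le_mul_right _ h2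
      _ = 3 * (n / 2 * (I + 1)) := by ring
      _ ≤ 3 * (3 * L) := Nat.mul_le_mul_left _ h1
      _ = 9 * L := by ring
  calc n * n ≤ n * (2 * ((I + 1) * (0 + (t + 1) * D)) + 1 * (t + 1) * I) :=
        Nat.mul_le_mul_left _ hO
    _ ≤ n * (2 * ((I + 1) * (0 + (t + 1) * D)) + 1 * (t + 1) * (2 * (I + 1))) := by
        apply Nat.mul_le_mul_left
        apply Nat.add_le_add_left
        apply Nat.mul_le_mul_left
        omega
    _ = 2 * (t + 1) * (D + 1) * (n * (I + 1)) := by ring
    _ ≤ 2 * (t + 1) * (D + 1) * (9 * L) := Nat.mul_le_mul_left _ h3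
    _ = 18 * (t + 1) * (D + 1) * L := by ring

theorem lin_bound [CharZero F] (C : LinCircuit F n) (hC : C.Computes (hilbert F n))
    (hn : 2 ≤ n) (t : ℕ) (hT : HasTreeDec C.adj t) :
    (n : ℝ) ^ 2 ≤ 72 * (t + 1) * C.inputEdges * Real.logb 2 (3 * C.inputEdges / n) := by
  set L := C.inputEdges with hL
  have hnL : n ≤ L := by
    obtain ⟨D, hD⟩ : ∃ D : ℕ, L * 2 ^ D ≤ (n / 2) * 3 ^ D := by
      obtain ⟨D, hD⟩ := pow_unbounded_of_one_lt (L : ℝ) (show (1 : ℝ) < 3 / 2 by norm_num)
      refine ⟨D, ?_⟩
      have h1 : (L : ℝ) * 2 ^ D ≤ ((n / 2 : ℕ) : ℝ) * 3 ^ D := by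
        rw [div_pow, lt_div_iff₀ (by positivity)] at hD
        have h2 : (1 : ℝ) ≤ ((n / 2 : ℕ) : ℝ) := by
          exact_mod_cast (show 1 ≤ n / 2 by omega)
        have h3 : (0 : ℝ) < 3 ^ D := by positivity
        nlinarith
      exact_mod_cast h1
    exact (lin_bound_nat C hC hn t D hT hD).1
  have hn0 : (0 : ℝ) < n := by
    have : 0 < n := by omega
    exact_mod_cast this
  have hnL' : (n : ℝ) ≤ L := by exact_mod_cast hnL
  set X : ℝ := 3 * L / n with hX
  have hX3 : 3 ≤ X := by
    rw [hX, le_div_iff₀ hn0]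
    linarith
  set y := Real.logb 2 X with hy
  have hy1 : 3 / 2 ≤ y := by
    rw [hy, Real.le_logb_iff_rpow_le (by norm_num) (by linarith)]
    have h1 : ((2 : ℝ) ^ (3 / 2 : ℝ)) ^ 2 = 8 := by
      rw [← Real.rpow_natCast, ← Real.rpow_mul (by norm_num)]
      norm_num
    have h2 : (0 : ℝ) ≤ (2 : ℝ) ^ (3 / 2 : ℝ) := by positivity
    nlinarith
  set k := ⌈y⌉₊ with hk
  have hky : y ≤ k := Nat.le_ceil y
  have hky2 : (k : ℝ) < y + 1 := Nat.ceil_lt_add_one (by linarith)
  have hXk : X ≤ 2 ^ k := by
    have h1 : X = 2 ^ y := by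
      rw [hy, Real.rpow_logb (by norm_num) (by norm_num) (by linarith)]
    rw [h1, ← Real.rpow_natCast]
    exact Real.rpow_le_rpow_of_exponent_le (by norm_num) hky
  have hD : L * 2 ^ (2 * k) ≤ (n / 2) * 3 ^ (2 * k) := by
    have h1 : (3 : ℝ) * L ≤ n * 2 ^ k := by
      rw [hX, div_le_iff₀ hn0] at hXk
      linarith
    have h2 : 3 * L ≤ n * 2 ^ k := by exact_mod_cast h1
    have h3 : n ≤ 3 * (n / 2) := by omega
    have h4 : L ≤ (n / 2) * 2 ^ k := by
      have : 3 * L ≤ 3 * ((n / 2) * 2 ^ k) := by
        calc 3 * L ≤ n * 2 ^ k := h2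
          _ ≤ 3 * (n / 2) * 2 ^ k := Nat.mul_le_mul_right _ h3
          _ = _ := by ring
      omega
    calc L * 2 ^ (2 * k) ≤ (n / 2) * 2 ^ k * 2 ^ (2 * k) := Nat.mul_le_mul_right _ h4
      _ = (n / 2) * 8 ^ k := by
          rw [mul_assoc, pow_mul, ← mul_pow]; norm_num
      _ ≤ (n / 2) * 9 ^ k := Nat.mul_le_mul_left _ (Nat.pow_le_pow_left (by norm_num) k)
      _ = (n / 2) * 3 ^ (2 * k) := by rw [pow_mul]; norm_num
  have hmain := (lin_bound_nat C hC hn t (2 * k) hT hD).2
  have hmain' : (n : ℝ) * n ≤ 18 * (t + 1) * (2 * k + 1) * L := by exact_mod_cast hmain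
  have h5 : (2 * (k : ℝ) + 1) ≤ 4 * y := by linarith
  have h6 : (0 : ℝ) ≤ 18 * ((t : ℝ) + 1) * L := by positivity
  calc (n : ℝ) ^ 2 = n * n := sq _
    _ ≤ 18 * (t + 1) * (2 * k + 1) * L := hmain'
    _ = (18 * (t + 1) * L) * (2 * k + 1) := by ring
    _ ≤ (18 * (t + 1) * L) * (4 * y) := mul_le_mul_of_nonneg_left h5 h6
    _ = 72 * (t + 1) * L * y := by ring

end Pool.Agent.H468R2.Lin
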